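import Pool.Agent.H18.RH.Charge

set_option autoImplicit false

namespace Pool.Agent.Results.MP_f117a2_lc.BlockCharge

open Pool.Agent.H86.RH Pool.Agent.H18.RH Finset

/-- **Charges of single blocks in 1x1 Rush Hour with one empty cell.** The charge modulo 2 of a
horizontal block never changes as long as every column the block can reach has exactly two cells
without a vertical block. -/
theorem result {m n : ℕ} {c c' : Config m n} {x x' p p' : Fin m × Fin n}
    (hx : ∀ y, c y = none ↔ y = x) (hx' : ∀ y, c' y = none ↔ y = x') (hp : c p = some true)
    (hK : ∀ (d : Config m n) (r : Fin m × Fin n), Carries c p d r →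
      #{i : Fin m | d (i, r.2) ≠ some false} = 2)
    (h : Carries c p c' p') : charge c x p % 2 = charge c' x' p' % 2 := by
  obtain ⟨q', e1, -, -, e4, -⟩ := carried hx hp hK h
  have hq : q' = x' := (hx' q').1 ((e1 q').2 rfl)
  rw [← hq]
  exact e4

end Pool.Agent.Results.MP_f117a2_lc.BlockCharge
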