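import Pool.Agent.H18.RH.Family

set_option autoImplicit false

namespace Pool.Agent.Results.MP_f117a2_lc.ExponentialClasses

open Pool.Agent.H86.RH Pool.Agent.H18.RH Finset

/-- **Exponentially many classes.** For every `k` there are `2^k` configurations on the
`4 x (2k+2)` board with the same single empty cell, the same numbers of horizontal blocks in the rows
and exactly two vertical blocks in every column, in each of which every cell can be emptied, and none
of which can be reached from another one. -/
theorem result (k : ℕ) : ∃ f : (Fin k → Bool) → Config 4 (2 * k + 2),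
    (∀ s y, f s y = none ↔ y = (1, 0)) ∧
    (∀ s s' i, #{j | f s (i, j) = some true} = #{j | f s' (i, j) = some true}) ∧
    (∀ s j, #{i | f s (i, j) = some false} = 2) ∧
    (∀ s y, ∃ d, Reach (f s) d ∧ d y = none) ∧
    (∀ s s', Reach (f s) (f s') → s = s') := by
  refine ⟨fam k, fam_none, fun s s' i => by rw [fam_row, fam_row], ?_,
    fun s y => emptiable_iff.2 (live s y), fun s s' h => fam_inj h⟩
  intro s j
  have h := fam_col s j
  have h1 : #{i : Fin 4 | fam k s (i, j) = some false}
      + #{i : Fin 4 | ¬ fam k s (i, j) = some false} = 4 := by
    rw [Finset.card_filter_add_card_filter_not]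
    rfl
  have h2 : #{i : Fin 4 | ¬ fam k s (i, j) = some false} = 2 := by
    convert h
  omega

end Pool.Agent.Results.MP_f117a2_lc.ExponentialClasses
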