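import Pool.Agent.H86.RH.Parity

namespace Pool.Agent.Results.MP_f117a2_lc.ParityInvariant

open Pool.Agent.H86.RH Finset

/-- The charge of a configuration `c` with empty cell `x`: the number of pairs of horizontal
blocks, the second strictly below and strictly to the left of the first, plus the number of
horizontal blocks in columns to the left of the empty cell, plus the number of horizontal blocks
above the empty cell in its column, plus the index of this column. -/
def charge {m n : ℕ} (c : Config m n) (x : Fin m × Fin n) : ℕ :=
  #{p : (Fin m × Fin n) × (Fin m × Fin n) | c p.1 = some true ∧ c p.2 = some true ∧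
      p.1.1 < p.2.1 ∧ p.2.2 < p.1.2} +
  #{y : Fin m × Fin n | c y = some true ∧ y.2 < x.2} +
  #{y : Fin m × Fin n | c y = some true ∧ y.2 = x.2 ∧ y.1 < x.1} + x.2

variable {m n : ℕ}

theorem cast_filter (c : Config m n) (P : Fin m × Fin n → Prop) [DecidablePred P] :
    ((#{y : Fin m × Fin n | c y = some true ∧ P y} : ℕ) : ZMod 2)
      = ∑ y, if P y then hh c y else 0 := by
  rw [Finset.natCast_card_filter]
  refine Finset.sum_congr rfl fun y _ => ?_
  unfold hh
  by_cases h1 : c y = some true <;> by_cases h2 : P y <;> simp [h1, h2]

theorem cast_charge {c : Config m n} {x : Fin m × Fin n} (hx : Hole c x) :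
    ((charge c x : ℕ) : ZMod 2) = J c x := by
  have add_self : ∀ a : ZMod 2, a + a = 0 := by decide
  have hhx : hh c x = 0 := by simp [hh, (hx x).2 rfl]
  -- the inversions
  have e1 : ((#{p : (Fin m × Fin n) × (Fin m × Fin n) | c p.1 = some true ∧ c p.2 = some true ∧
      p.1.1 < p.2.1 ∧ p.2.2 < p.1.2} : ℕ) : ZMod 2) = B (hh c) (hh c) := by
    rw [Finset.natCast_card_filter, Fintype.sum_prod_type]
    unfold B
    refine Finset.sum_congr rfl fun y _ => Finset.sum_congr rfl fun z _ => ?_
    have s1 : SW y z ↔ (y.1 < z.1 ∧ z.2 < y.2) := Iff.rfl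
    simp only [s1, hh]
    by_cases h1 : c y = some true <;> by_cases h2 : c z = some true <;>
      by_cases h3 : y.1 < z.1 ∧ z.2 < y.2 <;> simp [h1, h2, h3]
  -- the column counts
  have hcol : ∀ t : Fin n, (∑ i, hh c (i, t)) + vcol c t
      = (m : ZMod 2) - if t = x.2 then 1 else 0 := by
    intro t
    unfold vcol
    rw [← Finset.sum_add_distrib]
    have f : ∀ i : Fin m, hh c (i, t) + vv c (i, t) = 1 - if (i, t) = x then 1 else 0 := by
      intro i
      by_cases h : (i, t) = x
      · rw [if_pos h]
        have : c (i, t) = none := (hx _).2 h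
        simp [hh, vv, this]
      · rw [if_neg h]
        have hne : c (i, t) ≠ none := fun hn => h ((hx _).1 hn)
        unfold hh vv
        rcases hcc : c (i, t) with _ | b
        · exact absurd hcc hne
        · cases b <;> simp
    rw [Finset.sum_congr rfl fun i _ => f i, Finset.sum_sub_distrib]
    simp only [Finset.sum_const, Finset.card_univ, Fintype.card_fin, nsmul_eq_mul, mul_one]
    congr 1
    by_cases ht : t = x.2
    · rw [if_pos ht, Finset.sum_eq_single x.1]
      · rw [if_pos (by rw [ht])]
      · intro i _ hi
        rw [if_neg]
        intro h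
        exact hi (by rw [← h])
      · intro h
        exact absurd (Finset.mem_univ _) h
    · rw [if_neg ht]
      refine Finset.sum_eq_zero fun i _ => ?_
      rw [if_neg]
      intro h
      exact ht (by rw [← h])
  have hg : gcol c x.2 = (∑ t, if t ≤ x.2 then ∑ i, hh c (i, t) else 0) + (x.2 : ℕ) := by
    have f1 : ((x.2 : ℕ) : ZMod 2) = ∑ t : Fin n, if t < x.2 then (1 : ZMod 2) else 0 := by
      rw [← Finset.natCast_card_filter]
      congr 1
      rw [Finset.filter_gt_eq_Iio]
      simp
    rw [f1]
    unfold gcol
    rw [← Finset.sum_add_distrib]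
    refine Finset.sum_congr rfl fun t _ => ?_
    have hc := hcol t
    have neg : ∀ a : ZMod 2, -a = a := by decide
    by_cases h1 : t = x.2
    · have a1 : ¬ t < x.2 := by rw [h1]; exact lt_irrefl _
      have a2 : t ≤ x.2 := h1.le
      rw [if_pos h1] at hc
      rw [if_pos a2, if_pos a2, if_neg a1, ← hc]
      ring
    · rw [if_neg h1] at hc
      by_cases h2 : t < x.2
      · rw [if_pos h2.le, if_pos h2.le, if_pos h2]
        rw [sub_zero] at hc
        rw [← hc]
        have : ∀ a b : ZMod 2, a + b - 1 - b = a + 1 := by decide
        exact this _ _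
      · have a2 : ¬ t ≤ x.2 := fun h => h2 (lt_of_le_of_ne h h1)
        rw [if_neg a2, if_neg a2, if_neg h2]
        simp
  have hsum : (∑ t, if t ≤ x.2 then ∑ i, hh c (i, t) else 0)
      = ∑ y : Fin m × Fin n, if y.2 ≤ x.2 then hh c y else 0 := by
    rw [Fintype.sum_prod_type, Finset.sum_comm]
    refine Finset.sum_congr rfl fun t _ => ?_
    by_cases h : t ≤ x.2 <;> simp [h]
  unfold charge J
  push_cast
  rw [e1, cast_filter c (fun y => y.2 < x.2), cast_filter c (fun y => y.2 = x.2 ∧ y.1 < x.1), hg,
    hsum]
  unfold below
  have hfin : (∑ y, if y.2 < x.2 then hh c y else 0)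
      + (∑ y, if y.2 = x.2 ∧ y.1 < x.1 then hh c y else 0)
      = (∑ y, if y.2 = x.2 ∧ x.1 < y.1 then hh c y else 0)
        + ∑ y : Fin m × Fin n, if y.2 ≤ x.2 then hh c y else 0 := by
    rw [← Finset.sum_add_distrib, ← Finset.sum_add_distrib]
    refine Finset.sum_congr rfl fun y _ => ?_
    rcases lt_trichotomy y.2 x.2 with h | h | h
    · simp [h, h.le, h.ne]
    · rcases lt_trichotomy y.1 x.1 with h' | h' | h'
      · simp [h, h', h'.not_gt]
      · have : y = x := Prod.ext h' h
        simp [this, hhx]
      · simp [h, h', h'.not_gt, add_self]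
    · simp [h.not_gt, h.not_ge, h.ne']
  linear_combination hfin

/-- The first configuration of the example: rows `. H V` and `V V H`. -/
def ex1 : Config 2 3 := fun x =>
  ![![none, some true, some false], ![some false, some false, some true]] x.1 x.2

/-- The second configuration of the example: rows `. V H` and `V H V`. -/
def ex2 : Config 2 3 := fun x =>
  ![![none, some false, some true], ![some false, some true, some false]] x.1 x.2

/-- **A parity invariant of 1x1 Rush Hour with one empty cell.**  If `c'` can be reached from `c`
and both have exactly one empty cell, `x` and `x'`, then their charges have the same parity.  The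
parity is not determined by the numbers of blocks of the two kinds in the rows and columns: on the
`2 x 3` board there are two configurations with the same empty cell, the same number of horizontal
blocks in every row and of vertical blocks in every column, in each of which every cell can be
emptied, and which have charges of different parity. -/
theorem result :
    (∀ {m n : ℕ} {c c' : Config m n} {x x' : Fin m × Fin n}, (∀ y, c y = none ↔ y = x) →
      (∀ y, c' y = none ↔ y = x') → Reach c c' → charge c x % 2 = charge c' x' % 2) ∧
    (∃ (c c' : Config 2 3) (x : Fin 2 × Fin 3), (∀ y, c y = none ↔ y = x) ∧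
      (∀ y, c' y = none ↔ y = x) ∧
      (∀ i, #{j | c (i, j) = some true} = #{j | c' (i, j) = some true}) ∧
      (∀ j, #{i | c (i, j) = some false} = #{i | c' (i, j) = some false}) ∧
      (∀ y, (∃ d, Reach c d ∧ d y = none) ∧ (∃ d, Reach c' d ∧ d y = none)) ∧
      charge c x % 2 ≠ charge c' x % 2) := by
  refine ⟨?_, ex1, ex2, (0, 0), ?_, ?_, ?_, ?_, ?_, ?_⟩
  · intro m n c c' x x' hx hx' h
    obtain ⟨y, hy, hJ⟩ := J_reach h (x := x) hx
    have hyx : y = x' := (hx' y).1 ((hy y).2 rfl)
    subst hyx
    have := (cast_charge (c := c') hx').trans (hJ.trans (cast_charge (c := c) hx).symm)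
    exact ((ZMod.natCast_eq_natCast_iff' _ _ 2).1 this).symm
  · decide
  · decide
  · decide
  · decide
  · intro y
    have sl : ∀ (b : Bool) (p q : Fin 2 × Fin 3), Decidable (Slide b p q) := by
      intro b p q
      unfold Slide
      infer_instance
    constructor
    · rw [emptiable_iff]
      have k00 : InK ex1 (0, 0) := InK.hole (by decide)
      have k01 : InK ex1 (0, 1) := InK.step (b := true) k00 (by decide) (by unfold Slide; decide)
      have k10 : InK ex1 (1, 0) := InK.step (b := false) k00 (by decide) (by unfold Slide; decide)
      have k11 : InK ex1 (1, 1) := InK.step (b := false) k01 (by decide) (by unfold Slide; decide)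
      have k12 : InK ex1 (1, 2) := InK.step (b := true) k11 (by decide) (by unfold Slide; decide)
      have k02 : InK ex1 (0, 2) := InK.step (b := false) k12 (by decide) (by unfold Slide; decide)
      obtain ⟨i, j⟩ := y
      fin_cases i <;> fin_cases j <;> assumption
    · rw [emptiable_iff]
      have k00 : InK ex2 (0, 0) := InK.hole (by decide)
      have k10 : InK ex2 (1, 0) := InK.step (b := false) k00 (by decide) (by unfold Slide; decide)
      have k11 : InK ex2 (1, 1) := InK.step (b := true) k10 (by decide) (by unfold Slide; decide)
      have k01 : InK ex2 (0, 1) := InK.step (b := false) k11 (by decide) (by unfold Slide; decide)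
      have k02 : InK ex2 (0, 2) := InK.step (b := true) k01 (by decide) (by unfold Slide; decide)
      have k12 : InK ex2 (1, 2) := InK.step (b := false) k02 (by decide) (by unfold Slide; decide)
      obtain ⟨i, j⟩ := y
      fin_cases i <;> fin_cases j <;> assumption
  · decide

end Pool.Agent.Results.MP_f117a2_lc.ParityInvariant
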