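import Pool.Agent.H86.RH.Basic
import Pool.Agent.H86.RH.Geom

namespace Pool.Agent.Results.MP_f117a2_lc.RectangularRooms

open Pool.Agent.H86.RH

variable {m n : ℕ}

/-- The closure as a set of integer points. -/
def KZ (c : Config m n) (i j : ℤ) : Prop :=
  ∃ (x : Fin m × Fin n), InK c x ∧ (x.1 : ℤ) = i ∧ (x.2 : ℤ) = j

theorem KZ_bound {c : Config m n} {i j : ℤ} (h : KZ c i j) : 0 ≤ i ∧ i < m ∧ 0 ≤ j ∧ j < n := by
  obtain ⟨x, _, rfl, rfl⟩ := h
  have := x.1.isLt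
  have := x.2.isLt
  omega

theorem KZ_D1 {c : Config m n} (i j : ℤ) (h : KZ c i j) (h' : KZ c (i + 1) (j + 1)) :
    KZ c i (j + 1) ∧ KZ c (i + 1) j := by
  obtain ⟨x, hx, hx1, hx2⟩ := h
  obtain ⟨y, hy, hy1, hy2⟩ := h'
  constructor
  · refine ⟨(x.1, y.2), corner (z := (x.1, y.2)) hx hy ?_ ?_, hx1, hy2⟩
    · simp only [Slide, if_true]
      exact ⟨trivial, Or.inr (by omega)⟩
    · simp only [Slide, Bool.false_eq_true, if_false]
      exact ⟨trivial, Or.inl (by omega)⟩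
  · refine ⟨(y.1, x.2), corner (z := (y.1, x.2)) hy hx ?_ ?_, hy1, hx2⟩
    · simp only [Slide, if_true]
      exact ⟨trivial, Or.inl (by omega)⟩
    · simp only [Slide, Bool.false_eq_true, if_false]
      exact ⟨trivial, Or.inr (by omega)⟩

theorem KZ_D2 {c : Config m n} (i j : ℤ) (h : KZ c i (j + 1)) (h' : KZ c (i + 1) j) :
    KZ c i j ∧ KZ c (i + 1) (j + 1) := by
  obtain ⟨x, hx, hx1, hx2⟩ := h
  obtain ⟨y, hy, hy1, hy2⟩ := h'
  constructor
  · refine ⟨(x.1, y.2), corner (z := (x.1, y.2)) hx hy ?_ ?_, hx1, hy2⟩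
    · simp only [Slide, if_true]
      exact ⟨trivial, Or.inl (by omega)⟩
    · simp only [Slide, Bool.false_eq_true, if_false]
      exact ⟨trivial, Or.inl (by omega)⟩
  · refine ⟨(y.1, x.2), corner (z := (y.1, x.2)) hy hx ?_ ?_, hy1, hx2⟩
    · simp only [Slide, if_true]
      exact ⟨trivial, Or.inr (by omega)⟩
    · simp only [Slide, Bool.false_eq_true, if_false]
      exact ⟨trivial, Or.inr (by omega)⟩

/-- A neighbour of a cell of the closure with a suitable label is adjacent in the king sense. -/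
theorem slide_near {b : Bool} {z y : Fin m × Fin n} (h : Slide b z y) :
    (z.1 : ℤ) - 1 ≤ y.1 ∧ (y.1 : ℤ) ≤ z.1 + 1 ∧ (z.2 : ℤ) - 1 ≤ y.2 ∧ (y.2 : ℤ) ≤ z.2 + 1 := by
  unfold Slide at h
  split_ifs at h
  · obtain ⟨h1, h2⟩ := h
    rw [h1]
    omega
  · obtain ⟨h1, h2⟩ := h
    rw [h1]
    omega

/-- **Rooms of 1x1 Rush Hour are rectangles.**  Let `x` be a cell that can be emptied from the
configuration `c` (any number of empty cells).  Then `x` lies in a rectangle `[a, b] x [u, v]` such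
that every cell of the rectangle can be emptied from every configuration `c'` reachable from `c`, in
fewer moves than the rectangle has cells, and no cell of the ring around the rectangle (corners
included) ever changes: it holds a block that never moves. -/
theorem result {m n : ℕ} (c : Config m n) (x : Fin m × Fin n)
    (hx : ∃ c', Reach c c' ∧ c' x = none) :
    ∃ (a b : Fin m) (u v : Fin n), a ≤ x.1 ∧ x.1 ≤ b ∧ u ≤ x.2 ∧ x.2 ≤ v ∧
      (∀ c', Reach c c' → ∀ y : Fin m × Fin n, a ≤ y.1 → y.1 ≤ b → u ≤ y.2 → y.2 ≤ v →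
        ∃ (k : ℕ) (c'' : Config m n), k < ((b : ℕ) + 1 - a) * ((v : ℕ) + 1 - u) ∧
          ReachIn k c' c'' ∧ c'' y = none) ∧
      (∀ c', Reach c c' → ∀ y : Fin m × Fin n, (a : ℕ) ≤ y.1 + 1 → (y.1 : ℕ) ≤ b + 1 →
        (u : ℕ) ≤ y.2 + 1 → (y.2 : ℕ) ≤ v + 1 → ¬ (a ≤ y.1 ∧ y.1 ≤ b ∧ u ≤ y.2 ∧ y.2 ≤ v) →
        c' y = c y ∧ c y ≠ none) := by
  classical
  have hxK : InK c x := emptiable_iff.1 hx
  obtain ⟨a, b, u, v, h1, h2, h3, h4, h5, h6⟩ := rectangle (S := KZ c) (M := m) (N := n)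
    (fun i j h => KZ_bound h) (fun i j => KZ_D1 i j) (fun i j => KZ_D2 i j)
    (i0 := x.1) (j0 := x.2) ⟨x, hxK, rfl, rfl⟩
  have hau := KZ_bound (h5 a u le_rfl (by omega) le_rfl (by omega))
  have hbv := KZ_bound (h5 b v (by omega) le_rfl (by omega) le_rfl)
  obtain ⟨a, rfl⟩ : ∃ a' : ℕ, (a' : ℤ) = a := ⟨a.toNat, by omega⟩
  obtain ⟨b, rfl⟩ : ∃ b' : ℕ, (b' : ℤ) = b := ⟨b.toNat, by omega⟩
  obtain ⟨u, rfl⟩ : ∃ u' : ℕ, (u' : ℤ) = u := ⟨u.toNat, by omega⟩
  obtain ⟨v, rfl⟩ : ∃ v' : ℕ, (v' : ℤ) = v := ⟨v.toNat, by omega⟩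
  have ham : a < m := by omega
  have hbm : b < m := by omega
  have hun : u < n := by omega
  have hvn : v < n := by omega
  -- cells of the rectangle
  have hin : ∀ y : Fin m × Fin n, (a : ℕ) ≤ y.1 → (y.1 : ℕ) ≤ b → (u : ℕ) ≤ y.2 →
      (y.2 : ℕ) ≤ v → InK c y := by
    intro y y1 y2 y3 y4
    obtain ⟨z, hz, hz1, hz2⟩ := h5 y.1 y.2 (by omega) (by omega) (by omega) (by omega)
    have : z = y := Prod.ext (Fin.ext (by omega)) (Fin.ext (by omega))
    exact this ▸ hz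
  have hout : ∀ y : Fin m × Fin n, (a : ℕ) ≤ y.1 + 1 → (y.1 : ℕ) ≤ b + 1 →
      (u : ℕ) ≤ y.2 + 1 → (y.2 : ℕ) ≤ v + 1 →
      ¬ (a ≤ (y.1 : ℕ) ∧ (y.1 : ℕ) ≤ b ∧ u ≤ (y.2 : ℕ) ∧ (y.2 : ℕ) ≤ v) → ¬ InK c y := by
    intro y y1 y2 y3 y4 hn hy
    refine h6 y.1 y.2 (by omega) (by omega) (by omega) (by omega) ?_ ⟨y, hy, rfl, rfl⟩
    intro hh
    exact hn ⟨by omega, by omega, by omega, by omega⟩
  refine ⟨⟨a, ham⟩, ⟨b, hbm⟩, ⟨u, hun⟩, ⟨v, hvn⟩, ?_, ?_, ?_, ?_, ?_, ?_⟩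
  · exact Fin.le_def.2 (by simp; omega)
  · exact Fin.le_def.2 (by simp; omega)
  · exact Fin.le_def.2 (by simp; omega)
  · exact Fin.le_def.2 (by simp; omega)
  · intro c' hc' y y1 y2 y3 y4
    rw [Fin.le_def] at y1 y2 y3 y4
    simp only at y1 y2 y3 y4
    have hyK : InK c' y := (InK.iff_reach hc' y).2 (hin y y1 y2 y3 y4)
    have hex := hyK.lev
    obtain ⟨c'', g1, g2, _⟩ := emptying (Nat.find hex) y (Nat.find_spec hex)
      (fun j hj => Nat.find_min hex hj)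
    refine ⟨Nat.find hex, c'', ?_, g1, g2⟩
    -- cells of the rectangle of every smaller level
    set R : Finset (Fin m × Fin n) :=
      (Finset.Icc (⟨a, ham⟩ : Fin m) ⟨b, hbm⟩) ×ˢ (Finset.Icc (⟨u, hun⟩ : Fin n) ⟨v, hvn⟩) with hR
    have hRmem : ∀ z : Fin m × Fin n, z ∈ R ↔ (a ≤ (z.1 : ℕ) ∧ (z.1 : ℕ) ≤ b ∧ u ≤ (z.2 : ℕ) ∧
        (z.2 : ℕ) ≤ v) := by
      intro z
      rw [hR, Finset.mem_product, Finset.mem_Icc, Finset.mem_Icc, Fin.le_def, Fin.le_def,
        Fin.le_def, Fin.le_def]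
      tauto
    have hcard : R.card = ((b : ℕ) + 1 - a) * ((v : ℕ) + 1 - u) := by
      rw [hR, Finset.card_product, Fin.card_Icc, Fin.card_Icc]
    have hlev : ∀ t ≤ Nat.find hex, ∃ z ∈ R, Lev c' (Nat.find hex - t) z ∧
        ∀ j < Nat.find hex - t, ¬ Lev c' j z := by
      intro t
      induction t with
      | zero =>
        intro _
        exact ⟨y, (hRmem y).2 ⟨y1, y2, y3, y4⟩, Nat.find_spec hex, fun j hj => Nat.find_min hex hj⟩
      | succ t ih =>
        intro ht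
        obtain ⟨z, hzR, hz, hzmin⟩ := ih (by omega)
        have e : Nat.find hex - t = (Nat.find hex - (t + 1)) + 1 := by omega
        rw [e] at hz hzmin
        obtain ⟨w, hw, bb, hzb, hs⟩ := hz
        refine ⟨w, ?_, hw, fun j hj hjw => hzmin (j + 1) (by omega) ⟨w, hjw, bb, hzb, hs⟩⟩
        have hwK : InK c w := (InK.iff_reach hc' w).1 hw.inK
        have hnear := slide_near hs
        have hz4 := (hRmem z).1 hzR
        rw [hRmem]
        by_contra hcon
        exact hout w (by omega) (by omega) (by omega) (by omega) hcon hwK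
    rw [← hcard]
    have hlev' : ∀ t : Fin (Nat.find hex + 1), ∃ z ∈ R, Lev c' t z ∧ ∀ j < (t : ℕ), ¬ Lev c' j z := by
      intro t
      have ht := t.isLt
      obtain ⟨z, hz, hz1, hz2⟩ := hlev (Nat.find hex - t) (by omega)
      have e : Nat.find hex - (Nat.find hex - (t : ℕ)) = t := by omega
      rw [e] at hz1 hz2
      exact ⟨z, hz, hz1, hz2⟩
    choose f hfR hf hfmin using hlev'
    have hinj : Function.Injective f := by
      intro s t hst
      by_contra hne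
      have hne' : (s : ℕ) ≠ t := fun h => hne (Fin.ext h)
      rcases lt_or_gt_of_ne hne' with h | h
      · have l1 := hf s
        have l2 := hfmin t s h
        rw [← hst] at l2
        exact l2 l1
      · have l1 := hf t
        have l2 := hfmin s t h
        rw [hst] at l2
        exact l2 l1
    have := Finset.card_le_card_of_injOn (s := Finset.univ) (t := R) f
      (fun t _ => hfR t) hinj.injOn
    rw [Finset.card_univ, Fintype.card_fin] at this
    omega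
  · intro c' hc' y y1 y2 y3 y4 hn
    simp only [Fin.le_def] at hn
    have hnK := hout y y1 y2 y3 y4 hn
    exact ⟨eq_of_notK hc' hnK, ne_none_of_notK hnK⟩

end Pool.Agent.Results.MP_f117a2_lc.RectangularRooms
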